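import Pool.Agent.J6H8.CDim.UpperN
import Pool.Agent.R966.CD.LowDim2

/-!
Brownian traces in high dimension have conformal dimension one.
-/

set_option autoImplicit false

namespace Pool.Agent.Results.MP_d65fed_pr.ConfDimOne

open MeasureTheory ProbabilityTheory
open scoped NNReal ENNReal
open Pool.Agent.R966.CD (gam path continuous_path Wt low_dim)
open Pool.Agent.J6H8.CDim (Tr upper)

universe u

/-- Standard Brownian motion in `ℝ^n` started at `0`: measurable, with almost surely continuous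
paths, independent increments, and centred Gaussian increments with covariance `(t - s)` times the
identity. -/
structure IsBM {n : ℕ} {Ω : Type u} [MeasurableSpace Ω] (P : Measure Ω)
    (B : ℝ≥0 → Ω → EuclideanSpace ℝ (Fin n)) : Prop where
  measurable : ∀ t, Measurable (B t)
  zero : ∀ᵐ ω ∂P, B 0 ω = 0
  cont : ∀ᵐ ω ∂P, Continuous fun t => B t ω
  indep : HasIndepIncrements B P
  law : ∀ s t : ℝ≥0, s ≤ t → P.map (fun ω => B t ω - B s ω) =
    (stdGaussian (EuclideanSpace ℝ (Fin n))).map (fun z => Real.sqrt ((t - s : ℝ≥0) : ℝ) • z)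

/-- A homeomorphism `f : X → Y` between metric spaces is quasisymmetric: there is a homeomorphism
`η : [0,∞) → [0,∞)` such that `d(x,a) ≤ t d(x,b)` implies `d(f x, f a) ≤ η t * d(f x, f b)`. -/
def Quasisymmetric {X Y : Type} [MetricSpace X] [MetricSpace Y] (f : X ≃ₜ Y) : Prop :=
  ∃ η : ℝ≥0 ≃ₜ ℝ≥0, ∀ (x a b : X) (t : ℝ≥0), dist x a ≤ t * dist x b →
    dist (f x) (f a) ≤ η t * dist (f x) (f b)

/-- The conformal dimension of a metric space: the infimum of the Hausdorff dimensions of its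
quasisymmetric images. -/
noncomputable def confDim (X : Type) [MetricSpace X] : ℝ≥0∞ :=
  ⨅ (Y : Type) (_ : MetricSpace Y) (f : X ≃ₜ Y) (_ : Quasisymmetric f), dimH (Set.univ : Set Y)

/-- The trace `B([0,1])`. -/
def trace {n : ℕ} {Ω : Type u} (B : ℝ≥0 → Ω → EuclideanSpace ℝ (Fin n)) (ω : Ω) :
    Set (EuclideanSpace ℝ (Fin n)) :=
  (fun t => B t ω) '' Set.Icc 0 1

theorem trace_eq {n : ℕ} {Ω : Type u} (B : ℝ≥0 → Ω → EuclideanSpace ℝ (Fin n)) (ω : Ω) :
    trace B ω = Tr (path B ω) := by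
  ext y
  constructor
  · rintro ⟨t, ht, rfl⟩
    refine ⟨t, ⟨t.2, by exact_mod_cast ht.2⟩, ?_⟩
    show B (t : ℝ).toNNReal ω = B t ω
    rw [Real.toNNReal_coe]
  · rintro ⟨t, ht, rfl⟩
    refine ⟨t.toNNReal, ⟨zero_le, ?_⟩, rfl⟩
    have := Real.toNNReal_le_toNNReal ht.2
    rwa [Real.toNNReal_one] at this

theorem confDim_le {n : ℕ} (T S : Set (EuclideanSpace ℝ (Fin n))) (h : T = S) (q : ℝ≥0)
    (hW : ∃ W : Wt S, (∃ η : ℝ≥0 ≃ₜ ℝ≥0, ∀ (x a c : S) (t : ℝ≥0), dist x a ≤ t * dist x c →
      dist (W.homeo x) (W.homeo a) ≤ η t * dist (W.homeo x) (W.homeo c)) ∧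
      dimH (Set.univ : Set W.Y) ≤ q) : confDim T ≤ q := by
  subst h
  obtain ⟨W, ⟨η, hη⟩, hd⟩ := hW
  refine le_trans ?_ hd
  unfold confDim
  exact iInf_le_of_le W.Y (iInf_le_of_le inferInstance (iInf_le_of_le W.homeo
    (iInf_le_of_le ⟨η, hη⟩ le_rfl)))

/-- a connected metric space with two points has Hausdorff dimension at least one -/
theorem one_le_dimH {Y : Type} [MetricSpace Y] [PreconnectedSpace Y] {a b : Y} (h : a ≠ b) :
    1 ≤ dimH (Set.univ : Set Y) := by
  have hL : LipschitzWith 1 fun y : Y => dist y a := LipschitzWith.dist_left a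
  have h1 : dimH ((fun y : Y => dist y a) '' Set.univ) ≤ dimH (Set.univ : Set Y) :=
    hL.dimH_image_le _
  refine le_trans ?_ h1
  have hd : 0 < dist b a := dist_pos.mpr h.symm
  have hpre : IsPreconnected ((fun y : Y => dist y a) '' Set.univ) :=
    isPreconnected_univ.image _ hL.continuous.continuousOn
  have hsub : Set.Icc (0:ℝ) (dist b a) ⊆ (fun y : Y => dist y a) '' Set.univ := by
    apply hpre.Icc_subset
    · exact ⟨a, Set.mem_univ _, dist_self a⟩
    · exact ⟨b, Set.mem_univ _, rfl⟩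
  have h2 : dimH (Set.Icc (0:ℝ) (dist b a)) = 1 := by
    rw [Real.dimH_of_nonempty_interior, Module.finrank_self, Nat.cast_one]
    rw [interior_Icc]
    exact ⟨dist b a / 2, by constructor <;> linarith⟩
  rw [← h2]
  exact dimH_mono hsub

/-- the conformal dimension of a connected set with two points is at least one -/
theorem one_le_confDim {X : Type} [MetricSpace X] [PreconnectedSpace X] {a b : X} (h : a ≠ b) :
    1 ≤ confDim X := by
  unfold confDim
  refine le_iInf fun Y => le_iInf fun _ => le_iInf fun f => le_iInf fun _ => ?_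
  have : PreconnectedSpace Y := ⟨by
    rw [← f.surjective.range_eq]
    exact isPreconnected_range f.continuous⟩
  exact one_le_dimH (f.injective.ne h)

/-- **Main result (Q2 of the problem, with `n₀ = 100`).** For every `n ≥ 100` and every standard
Brownian motion in `ℝ^n`, almost surely the trace `B([0,1])` has conformal dimension exactly one. -/
theorem result : ∀ n ≥ 100, ∀ (Ω : Type u) [MeasurableSpace Ω] (P : Measure Ω)
    [IsProbabilityMeasure P] (B : ℝ≥0 → Ω → EuclideanSpace ℝ (Fin n)), IsBM P B →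
    ∀ᵐ ω ∂P, confDim (trace B ω) = 1 := by
  intro n hn Ω _ P _ B hB
  have hB' : Pool.Agent.R966.CD.IsBM P B := ⟨hB.measurable, hB.zero, hB.cont, hB.indep, hB.law⟩
  obtain ⟨q, hq⟩ : ∃ q : ℕ → ℝ≥0, q = fun m : ℕ => 1 + 1 / ((m:ℝ≥0) + 1) := ⟨_, rfl⟩
  have hq1 : ∀ m, 1 < q m := by
    intro m
    rw [hq]
    exact lt_add_of_pos_right 1 (by positivity)
  have hq2 : ∀ m, q m ≤ 2 := by
    intro m
    rw [hq]
    have h1 : 1 / ((m:ℝ≥0) + 1) ≤ 1 := by
      rw [div_le_one (by positivity)]
      exact le_add_self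
    calc 1 + 1 / ((m:ℝ≥0) + 1) ≤ 1 + 1 := by gcongr
      _ = 2 := by norm_num
  have hall : ∀ᵐ ω ∂P, ∀ m, confDim (trace B ω) ≤ q m := by
    rw [ae_all_iff]
    intro m
    filter_upwards [upper (q m) (hq1 m) (hq2 m) hn P B hB'] with ω h1
    exact confDim_le _ _ (trace_eq B ω) (q m) h1
  filter_upwards [hall, low_dim hB' (by omega : 3 ≤ n), hB.cont] with ω h1 h2 h3
  apply le_antisymm
  · refine ENNReal.le_of_forall_pos_le_add fun ε hε _ => ?_
    obtain ⟨m, hm⟩ := exists_nat_gt (1 / ε)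
    refine (h1 m).trans ?_
    have h4 : q m ≤ 1 + ε := by
      rw [hq]
      have h5 : 1 / ((m:ℝ≥0) + 1) ≤ ε := by
        rw [div_le_iff₀ (by positivity)]
        rw [div_lt_iff₀ hε] at hm
        calc (1:ℝ≥0) ≤ m * ε := hm.le
          _ = ε * m := mul_comm _ _
          _ ≤ ε * (m + 1) := by gcongr; exact le_self_add
      show 1 + 1 / ((m:ℝ≥0) + 1) ≤ 1 + ε
      gcongr
    exact_mod_cast h4
  · have hcon : IsPreconnected (trace B ω) := by
      rw [trace_eq]
      exact isPreconnected_Icc.image _ (continuous_path h3).continuousOn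
    have : PreconnectedSpace (trace B ω) := Subtype.preconnectedSpace hcon
    have hns : ¬ (trace B ω).Subsingleton := by
      intro hs
      have h4 := hs.dimH_zero
      have h2' : ((3/2 : ℝ≥0) : ℝ≥0∞) ≤ dimH (trace B ω) := by
        rw [trace_eq]
        exact h2
      rw [h4] at h2'
      have : (0:ℝ≥0∞) < ((3/2 : ℝ≥0) : ℝ≥0∞) := by
        rw [ENNReal.coe_pos]
        positivity
      exact absurd h2' (not_le.mpr this)
    rw [Set.not_subsingleton_iff] at hns
    obtain ⟨a, ha, b, hb, hab⟩ := hns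
    exact one_le_confDim (a := (⟨a, ha⟩ : trace B ω)) (b := ⟨b, hb⟩) (by
      intro h
      exact hab (congrArg Subtype.val h))

end Pool.Agent.Results.MP_d65fed_pr.ConfDimOne
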